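import Pool.Agent.H90.SWL.BIa
import Pool.Agent.H31.SX.TargetsS

/-!
# The bound for the integral over all positions: archimedean and depth aspect
-/

set_option autoImplicit false

open NumberField NumberField.InfinitePlace NumberField.Units
  NumberField.Units.dirichletUnitTheorem MeasureTheory Set Filter Complex
open scoped nonZeroDivisors ENNReal

namespace Pool.Agent.H70.SWX

open Pool.Agent.H25.HK Pool.Agent.H23.LB Pool.Agent.H23.LC
open Pool.Agent.H28.RC (Rep ft idl)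
open Pool.Agent.H29.DW (dg Rl lf wv Pos Wg cpar Ci om zs rv Wt)
open Pool.Agent.H31.SW
open Pool.Agent.H31.SX
open Pool.Agent.H90.SWL.BI

section

variable {K : Type} [Field K] [NumberField K]

open scoped Classical in
/-- the integral of a function of the position in the norm direction -/
private theorem lint_prod {n : ℕ} (hn : Module.finrank ℚ K = n) (hFD : T_FD) (g : ℝ → ℝ≥0∞)
    (hg : Measurable g) :
    ∫⁻ u in Fd K ×ˢ (univ : Set ℝ) ×ˢ An K, g u.2.1 ≤
      ENNReal.ofReal (regulator K) *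
        ((∫⁻ τ, g τ) * ENNReal.ofReal ((2 * Real.pi) ^ n)) := by
  have hm : Measurable (fun u : logSpace K × ℝ × (InfinitePlace K → ℝ) => g u.2.1) :=
    hg.comp (measurable_fst.comp measurable_snd)
  rw [Measure.volume_eq_prod, ← Measure.prod_restrict, Measure.volume_eq_prod,
    ← Measure.prod_restrict, lintegral_prod _ hm.aemeasurable]
  have h2 : ∫⁻ y : ℝ × (InfinitePlace K → ℝ), g y.1
      ∂((volume.restrict (univ : Set ℝ)).prod (volume.restrict (An K))) =
      (∫⁻ τ, g τ) * volume (An K) := by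
    have hm2 : Measurable (fun y : ℝ × (InfinitePlace K → ℝ) => g y.1) := hg.comp measurable_fst
    rw [lintegral_prod _ hm2.aemeasurable, Measure.restrict_univ]
    simp only [lintegral_const, Measure.restrict_apply MeasurableSet.univ, univ_inter]
    rw [lintegral_mul_const _ hg]
  simp only [h2, lintegral_const, Measure.restrict_apply MeasurableSet.univ, univ_inter]
  rw [mul_comm]
  refine mul_le_mul' ?_ (mul_le_mul' le_rfl (Pool.Agent.H29.DW.An_vol hn))
  have h1 := Pool.Agent.H94.GLA.vol_Fd (K := K)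
  rw [← h1]
  exact le_of_eq (ENNReal.ofReal_toReal (hFD K).2.2.2.1.ne).symm

private theorem DD_yM (hYC : T_YC) (M : FI K) (hM : M ≠ 0) (τ : ℝ) (z : logSpace K) :
    DD M (yM K M τ z) = Real.exp (-τ) := by
  have h0 : (0 : ℝ) < (FractionalIdeal.absNorm M : ℝ) := by
    have h1 : FractionalIdeal.absNorm M ≠ 0 := by
      rw [Ne, FractionalIdeal.absNorm_eq_zero_iff]
      exact hM
    have h2 : 0 ≤ FractionalIdeal.absNorm M := FractionalIdeal.absNorm_nonneg M
    exact_mod_cast lt_of_le_of_ne h2 h1.symm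
  unfold DD yM
  rw [(hYC K).1]
  have h1 : -(2 * (τ - Real.log (FractionalIdeal.absNorm M : ℝ))) / 2 =
      -τ + Real.log (FractionalIdeal.absNorm M : ℝ) := by ring
  rw [h1, Real.exp_add, Real.exp_log h0]
  field_simp

end

open scoped Classical in
/-- (BI) the bound for the integral over all positions. -/
theorem pf_BI (hRS : X_RS) (hIN : Pool.Agent.H31.SW.W_IN) (hMS : Pool.Agent.H31.SW.W_MS)
    (hRR : T_RR) (hYC : T_YC) (hFD : T_FD) : X_BI := by
  intro n hn0 κ hκ0 hκ1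
  obtain ⟨C1, hC1, hRS1⟩ := hRS n (ps κ pz) hn0 (ps_Pf κ)
  obtain ⟨C2, hC2, hRS2⟩ := hRS n (ps 1 pz) hn0 (ps_Pf 1)
  obtain ⟨I0, hI0⟩ : ∃ I0 : ℝ≥0∞, I0 = ∫⁻ w : ℝ, ENNReal.ofReal (Real.exp (-w ^ 2 / 4) *
    (4 + 2 * |w|) ^ (2 * n)) := ⟨_, rfl⟩
  have hI0fin : I0 < ⊤ := by
    rw [hI0]
    exact Pool.Agent.H29.DW.gauss_poly (2 * n)
  obtain ⟨b, hb⟩ : ∃ b : ℝ, b = min κ (1 / 4) := ⟨_, rfl⟩
  have hb0 : 0 < b := by
    rw [hb]
    exact lt_min hκ0 (by norm_num)
  refine ⟨(C1 + C2) * I0.toReal * ((Real.exp n + 1) * 3 ^ n * (2 * Real.exp n)) *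
    (Real.exp (b * n) / b) * (2 * Real.pi) ^ n, by positivity, ?_⟩
  intro K _ _ hn ι _ M hM l k c X B E v q cc s hl hk hCD hc hX hX2 hB hv hE hper hbd
  have hX0 : 0 < X := by linarith
  have hNl : 1 ≤ Nf K l := by
    unfold Nf
    have h : Ideal.absNorm l ≠ 0 := fun h => hl (Ideal.absNorm_eq_zero_iff.1 h)
    exact_mod_cast Nat.one_le_iff_ne_zero.2 h
  have hNl0 : 0 < Nf K l := by linarith
  have hd : 1 ≤ dK K := by
    unfold dK
    have h : (1 : ℤ) ≤ |discr K| := Int.one_le_abs (discr_ne_zero K)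
    have h2 : ((1 : ℤ) : ℝ) ≤ ((|discr K| : ℤ) : ℝ) := by exact_mod_cast h
    simpa using h2
  have hd0 : 0 < dK K := by linarith
  have hreg : 0 < regulator K := regulator_pos K
  have hNk : 1 ≤ Nf K k := by
    unfold Nf
    have h : Ideal.absNorm k ≠ 0 := fun h => hk (Ideal.absNorm_eq_zero_iff.1 h)
    exact_mod_cast Nat.one_le_iff_ne_zero.2 h
  have hNk0 : 0 < Nf K k := by linarith
  have hbdq : ∀ i, ∀ x ∈ M i, ‖cc i x * q i x‖ ≤ E := by
    intro i x hx
    rw [norm_mul]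
    calc ‖cc i x‖ * ‖q i x‖ ≤ E * 1 :=
          mul_le_mul (hbd i x hx) ((hCD i).norm x hx) (norm_nonneg _) hE
      _ = E := mul_one E
  obtain ⟨T, hT⟩ : ∃ T : ℝ, T = PP (fun v => 1 + ‖c v‖) * Nf K k := ⟨_, rfl⟩
  have hT1 : 1 ≤ T := by
    rw [hT]
    exact one_le_mul_of_one_le_of_one_le
      (one_le_PP fun v => by have := norm_nonneg (c v); linarith) hNk
  have hT0 : 0 < T := by linarith
  rw [← hT] at hX2 ⊢
  obtain ⟨W, hW⟩ : ∃ W : ℝ, W = B * ((C1 + C2) * E * Nf K l * Nf K k.radical ^ 4 * dK K ^ (5 / 4 : ℝ) *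
    T ^ (27 / 164 : ℝ)) * ((Real.exp n + 1) * 3 ^ n * dK K ^ (3 / 8 : ℝ) *
      (2 * Real.exp n * X ^ κ)) * I0.toReal := ⟨_, rfl⟩
  have hW0 : 0 ≤ W := by
    rw [hW]
    positivity
  -- the pointwise bound
  have hpt : ∀ (i : ι) (u : logSpace K × ℝ × (InfinitePlace K → ℝ)),
      ENNReal.ofReal ‖∑' x : {x : K // x ∈ M i ∧ x ≠ 0}, (cc i x * q i x) *
        v (Ideal.absNorm (idl K (M i) x)) *
          pF (fun v => GG (pz (rv v)) (c v)) (yM K (M i) u.2.1 (zs s u.1)) (om s u.2.2) x‖ ≤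
      (Iic (n : ℝ)).indicator (fun τ => ENNReal.ofReal (W * Real.exp (b * τ))) u.2.1 := by
    rintro i ⟨z, τ, θ⟩
    show ENNReal.ofReal ‖∑' x : {x : K // x ∈ M i ∧ x ≠ 0}, (cc i x * q i x) *
        v (Ideal.absNorm (idl K (M i) x)) *
          pF (fun v => GG (pz (rv v)) (c v)) (yM K (M i) τ (zs s z)) (om s θ) x‖ ≤
      (Iic (n : ℝ)).indicator (fun τ => ENNReal.ofReal (W * Real.exp (b * τ))) τ
    by_cases hτ : τ ≤ n
    · rw [indicator_of_mem (show τ ∈ Iic (n : ℝ) from hτ)]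
      obtain ⟨σ, hσ⟩ : ∃ σ : ℝ, σ = if 0 ≤ Real.log X + τ then κ else 1 := ⟨_, rfl⟩
      have hσ' : σ = κ ∨ σ = 1 := by
        rw [hσ]
        split_ifs
        · exact Or.inl rfl
        · exact Or.inr rfl
      have hIN' := hIN K (M i) c pz (fun x => cc i x * q i x) κ X B v (hM.1 i) pz_Pf ⟨E, hbdq i⟩ hκ0 hκ1 hX0 hB hv
        (zs s z) τ (om s θ) σ (Pool.Agent.H29.DW.Pos_om s θ) hσ'
      refine hIN'.trans ?_
      obtain ⟨a, ha⟩ : ∃ a : ℝ, a = Real.exp (-τ) / Nf K l := ⟨_, rfl⟩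
      have ha0 : 0 ≤ a := by rw [ha]; positivity
      obtain ⟨F, hF⟩ : ∃ F : ℝ, F = (C1 + C2) * E * Nf K l * Nf K k.radical ^ 4 * dK K ^ (5 / 4 : ℝ) *
        (1 + a) ^ (1 / 2 : ℝ) * (T ^ (27 / 164 : ℝ) *
          (1 + a / T ^ (1 / 2 : ℝ)) ^ (3 / 4 : ℝ)) := ⟨_, rfl⟩
      have hF0 : 0 ≤ F := by rw [hF]; positivity
      have hin : ∀ w : ℝ, ‖∑' x : {x : K // x ∈ M i}, (cc i x * q i x) *
          pF (fun v => GG (ps σ pz (rv v)) (c v + (v.mult : ℂ) * w))
            (yM K (M i) τ (zs s z)) (om s θ) x‖ ≤ F * (4 + 2 * |w|) ^ (2 * n) := by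
        intro w
        obtain ⟨T', hT'⟩ : ∃ T' : ℝ,
            T' = PP (fun v => 1 + ‖c v + (v.mult : ℂ) * w‖) * Nf K k := ⟨_, rfl⟩
        have hT1' : 1 ≤ T' := by
          rw [hT']
          exact one_le_mul_of_one_le_of_one_le (one_le_PP fun v => by
            have := norm_nonneg (c v + (v.mult : ℂ) * w); linarith) hNk
        have hreal : ∀ v : InfinitePlace K, Rl (rv v) (c v + (v.mult : ℂ) * w) := by
          intro v hr
          have := hc v hr
          simp [this]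
        have h1 : ‖∑' x : {x : K // x ∈ M i}, (cc i x * q i x) *
          pF (fun v => GG (ps σ pz (rv v)) (c v + (v.mult : ℂ) * w))
            (yM K (M i) τ (zs s z)) (om s θ) x‖ ≤ (C1 + C2) * E * Nf K l * Nf K k.radical ^ 4 *
            dK K ^ (5 / 4 : ℝ) * (1 + a) ^ (1 / 2 : ℝ) * T' ^ (27 / 164 : ℝ) *
            (1 + a / T' ^ (1 / 2 : ℝ)) ^ (3 / 4 : ℝ) := by
          rcases hσ' with h | h
          · have h2 := hRS1 K hn l k (M i) (q i) (cc i) (yM K (M i) τ (zs s z)) (om s θ)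
              (fun v => c v + (v.mult : ℂ) * w) E hl hk (hM.1 i)
              (Pool.Agent.H29.DW.Pos_om s θ) (hCD i) hreal (hper i) (hbd i)
            rw [DD_yM hYC (M i) (hM.1 i), ← hT', ← ha] at h2
            rw [h]
            refine h2.trans ?_
            gcongr
            linarith
          · have h2 := hRS2 K hn l k (M i) (q i) (cc i) (yM K (M i) τ (zs s z)) (om s θ)
              (fun v => c v + (v.mult : ℂ) * w) E hl hk (hM.1 i)
              (Pool.Agent.H29.DW.Pos_om s θ) (hCD i) hreal (hper i) (hbd i)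
            rw [DD_yM hYC (M i) (hM.1 i), ← hT', ← ha] at h2
            rw [h]
            refine h2.trans ?_
            gcongr
            linarith
        have hq : 1 ≤ (1 + 2 * |w|) ^ n := one_le_pow₀ (by have := abs_nonneg w; linarith)
        have h3 := mul_le_mul_of_nonneg_right (PP_le hn c w) hNk0.le
        have h4 := mul_le_mul_of_nonneg_right
          (PP_le hn (fun v => c v + (v.mult : ℂ) * w) (-w)) hNk0.le
        have h5 : (fun v : InfinitePlace K => 1 + ‖c v + (v.mult : ℂ) * w +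
            (v.mult : ℂ) * ((-w : ℝ) : ℂ)‖) = fun v => 1 + ‖c v‖ := by
          funext v
          congr 2
          push_cast
          ring
        rw [h5, abs_neg, mul_right_comm, ← hT', ← hT] at h4
        rw [← hT', mul_right_comm, ← hT] at h3
        have h6 := cmp ha0 hT1 hT1' hq h3 h4
        refine h1.trans ?_
        calc (C1 + C2) * E * Nf K l * Nf K k.radical ^ 4 * dK K ^ (5 / 4 : ℝ) * (1 + a) ^ (1 / 2 : ℝ) *
              T' ^ (27 / 164 : ℝ) * (1 + a / T' ^ (1 / 2 : ℝ)) ^ (3 / 4 : ℝ)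
            = (C1 + C2) * E * Nf K l * Nf K k.radical ^ 4 * dK K ^ (5 / 4 : ℝ) * (1 + a) ^ (1 / 2 : ℝ) *
              (T' ^ (27 / 164 : ℝ) * (1 + a / T' ^ (1 / 2 : ℝ)) ^ (3 / 4 : ℝ)) := by ring
          _ ≤ (C1 + C2) * E * Nf K l * Nf K k.radical ^ 4 * dK K ^ (5 / 4 : ℝ) * (1 + a) ^ (1 / 2 : ℝ) *
              (((1 + 2 * |w|) ^ n) ^ 2 * (T ^ (27 / 164 : ℝ) *
                (1 + a / T ^ (1 / 2 : ℝ)) ^ (3 / 4 : ℝ))) :=
              mul_le_mul_of_nonneg_left h6 (by positivity)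
          _ = F * (1 + 2 * |w|) ^ (2 * n) := by
              rw [hF, ← pow_mul, mul_comm n 2]
              ring
          _ ≤ F * (4 + 2 * |w|) ^ (2 * n) := by
              refine mul_le_mul_of_nonneg_left ?_ hF0
              exact pow_le_pow_left₀ (by positivity) (by linarith) _
      have hint : ∫⁻ w : ℝ, ENNReal.ofReal (Real.exp (-w ^ 2 / 4) *
          ‖∑' x : {x : K // x ∈ M i}, (cc i x * q i x) *
          pF (fun v => GG (ps σ pz (rv v)) (c v + (v.mult : ℂ) * w))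
            (yM K (M i) τ (zs s z)) (om s θ) x‖) ≤ ENNReal.ofReal F * I0 := by
        rw [hI0, ← lintegral_const_mul' _ _ ENNReal.ofReal_ne_top]
        refine lintegral_mono fun w => ?_
        rw [← ENNReal.ofReal_mul hF0]
        refine ENNReal.ofReal_le_ofReal ?_
        calc Real.exp (-w ^ 2 / 4) * _ ≤ Real.exp (-w ^ 2 / 4) * (F * (4 + 2 * |w|) ^ (2 * n)) :=
              mul_le_mul_of_nonneg_left (hin w) (Real.exp_pos _).le
          _ = _ := by ring
      refine (mul_le_mul' le_rfl hint).trans ?_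
      rw [← ENNReal.ofReal_toReal hI0fin.ne, ← ENNReal.ofReal_mul hF0,
        ← ENNReal.ofReal_mul (by positivity)]
      refine ENNReal.ofReal_le_ofReal ?_
      have hnum := num (n := n) (κ := κ) (X := X) (N := Nf K l) (T := T) (d := dK K) (a := a)
        (τ := τ) hκ0 hκ1 hX hNl hT1 hd hX2 hτ ha σ hσ
      rw [← hb] at hnum
      calc B * X ^ σ * Real.exp (τ * (1 / 2 + σ)) * (F * I0.toReal)
          = (B * ((C1 + C2) * E * Nf K l * Nf K k.radical ^ 4 * dK K ^ (5 / 4 : ℝ) * T ^ (27 / 164 : ℝ)) *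
            I0.toReal) * (X ^ σ * Real.exp (τ * (1 / 2 + σ)) * ((1 + a) ^ (1 / 2 : ℝ) *
              (1 + a / T ^ (1 / 2 : ℝ)) ^ (3 / 4 : ℝ))) := by
            rw [hF]
            ring
        _ ≤ (B * ((C1 + C2) * E * Nf K l * Nf K k.radical ^ 4 * dK K ^ (5 / 4 : ℝ) * T ^ (27 / 164 : ℝ)) *
            I0.toReal) * ((Real.exp n + 1) * 3 ^ n * dK K ^ (3 / 8 : ℝ) *
              (2 * Real.exp n * X ^ κ * Real.exp (b * τ))) :=
            mul_le_mul_of_nonneg_left hnum (by positivity)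
        _ = W * Real.exp (b * τ) := by
            rw [hW]
            ring
    · have h1 := (hMS K (M i) c pz (fun x => cc i x * q i x) s (hM.1 i) pz_Pf ⟨E, hbdq i⟩).2
      have h2 : ∀ x : {x : K // x ∈ M i ∧ x ≠ 0}, (cc i x * q i x) *
          v (Ideal.absNorm (idl K (M i) x)) *
            pF (fun v => GG (pz (rv v)) (c v)) (yM K (M i) τ (zs s z)) (om s θ) x = 0 := by
        intro x
        have h3 : pF (fun v => GG (pz (rv v)) (c v)) (yM K (M i) τ (zs s z)) (om s θ) x.1 = 0 := by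
          by_contra h4
          have h5 := (h1 (zs s z) τ θ x.1 x.2.1 h4).2
          rw [hn] at h5
          exact hτ h5
        rw [h3, mul_zero]
      simp only [h2, tsum_zero, norm_zero, ENNReal.ofReal_zero]
      exact zero_le
  -- the integral
  have hgm : Measurable ((Iic (n : ℝ)).indicator
      (fun τ => ENNReal.ofReal (W * Real.exp (b * τ)))) := by
    refine Measurable.indicator ?_ measurableSet_Iic
    fun_prop
  have hone : ∀ i : ι, ∫⁻ u in Fd K ×ˢ (univ : Set ℝ) ×ˢ An K,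
      ENNReal.ofReal ‖∑' x : {x : K // x ∈ M i ∧ x ≠ 0}, (cc i x * q i x) *
        v (Ideal.absNorm (idl K (M i) x)) *
          pF (fun v => GG (pz (rv v)) (c v)) (yM K (M i) u.2.1 (zs s u.1)) (om s u.2.2) x‖ ≤
      ENNReal.ofReal (regulator K * ((W * (Real.exp (b * n) / b)) * (2 * Real.pi) ^ n)) := by
    intro i
    refine (lintegral_mono fun u => hpt i u).trans ?_
    refine (lint_prod hn hFD _ hgm).trans (le_of_eq ?_)
    rw [lintegral_indicator measurableSet_Iic, lint_exp hW0 hb0, ← ENNReal.ofReal_mul (by positivity),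
      ← ENNReal.ofReal_mul hreg.le]
  refine (Finset.sum_le_sum fun i _ => hone i).trans ?_
  rw [Finset.sum_const, nsmul_eq_mul, Finset.card_univ, (hRR K ι M hM).2.2,
    ← ENNReal.ofReal_natCast, ← ENNReal.ofReal_mul (Nat.cast_nonneg _)]
  refine ENNReal.ofReal_le_ofReal ?_
  have hXκ : X ^ κ ≤ X ^ (2 * κ) := Real.rpow_le_rpow_of_exponent_le hX (by linarith)
  have hdd : dK K ^ (13 / 8 : ℝ) = dK K ^ (5 / 4 : ℝ) * dK K ^ (3 / 8 : ℝ) := by
    rw [← Real.rpow_add hd0]
    norm_num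
  rw [hdd, hW]
  calc (classNumber K : ℝ) * (regulator K * ((B * ((C1 + C2) * E * Nf K l * Nf K k.radical ^ 4 *
        dK K ^ (5 / 4 : ℝ) * T ^ (27 / 164 : ℝ)) * ((Real.exp n + 1) * 3 ^ n *
          dK K ^ (3 / 8 : ℝ) * (2 * Real.exp n * X ^ κ)) * I0.toReal *
            (Real.exp (b * n) / b)) * (2 * Real.pi) ^ n))
      = ((classNumber K : ℝ) * (regulator K * ((B * ((C1 + C2) * E * Nf K l * Nf K k.radical ^ 4 *
        dK K ^ (5 / 4 : ℝ) * T ^ (27 / 164 : ℝ)) * ((Real.exp n + 1) * 3 ^ n *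
          dK K ^ (3 / 8 : ℝ) * (2 * Real.exp n)) * I0.toReal *
            (Real.exp (b * n) / b)) * (2 * Real.pi) ^ n))) * X ^ κ := by ring
    _ ≤ ((classNumber K : ℝ) * (regulator K * ((B * ((C1 + C2) * E * Nf K l * Nf K k.radical ^ 4 *
        dK K ^ (5 / 4 : ℝ) * T ^ (27 / 164 : ℝ)) * ((Real.exp n + 1) * 3 ^ n *
          dK K ^ (3 / 8 : ℝ) * (2 * Real.exp n)) * I0.toReal *
            (Real.exp (b * n) / b)) * (2 * Real.pi) ^ n))) * X ^ (2 * κ) := by
        refine mul_le_mul_of_nonneg_left hXκ ?_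
        have : 0 ≤ (C1 + C2) * E := by positivity
        positivity
    _ = _ := by ring

end Pool.Agent.H70.SWX
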